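import Pool.Agent.H33.TR.RadG
import Pool.Agent.H36.LI.FeE

/-!
# THEOREM L version 5 over families of fields

`InRadE b P δ₀ L`: every finite subset of `L` lies in a field `K(ξ, x, y)`, `ξ^n = 1`, `x^m = b`, `[ℚ(x) : ℚ] = m`, `n` prime to `m b`,
`δ 𝓞_(ℚ(x)) ⊆ ℤ[x]` for some `1 ≤ δ ≤ δ₀`, `y` of degree at most `P` over `K(ξ, x)`.
`ptsE`: the bound for points over such `L` (model: `ptsG` in `Pool/Agent/H33/TR/RadG.lean`).
-/

set_option autoImplicit false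
set_option linter.unusedSectionVars false

open NumberField IntermediateField

namespace Pool.Agent.H36.RL

open Pool.Agent.H72.PB Pool.Agent.H11.TH Pool.Agent.H36.LH

/-- Every finite subset of `L` lies in a field `K(ξ, x, y)`, `ξ ^ n = 1`, `x ^ m = b`, `[ℚ(x) : ℚ] = m`, `n` prime to `m b`,
`δ 𝓞_(ℚ(x)) ⊆ ℤ[x]` for some `1 ≤ δ ≤ δ₀`, `y` of degree at most `P` over `K(ξ, x)`. -/
def InRadE {K Ω : Type} [Field K] [Field Ω] [CharZero Ω] [Algebra K Ω] (b P δ₀ : ℕ)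
    (L : IntermediateField K Ω) : Prop :=
  ∀ S : Finset Ω, (∀ z ∈ S, z ∈ L) → ∃ (m n δ : ℕ) (ξ x y : Ω), 1 ≤ m ∧ 1 ≤ n ∧
    n.Coprime (m * b) ∧ ξ ^ n = 1 ∧ x ^ m = (b : Ω) ∧ Module.finrank ℚ ℚ⟮x⟯ = m ∧
    (1 ≤ δ ∧ δ ≤ δ₀ ∧
      ∀ z ∈ ℚ⟮x⟯, IsIntegral ℤ z → (δ : Ω) * z ∈ Algebra.adjoin ℤ ({x} : Set Ω)) ∧
    (∃ p : Polynomial (IntermediateField.adjoin K ({ξ, x} : Set Ω)), p ≠ 0 ∧ p.natDegree ≤ P ∧
      Polynomial.aeval y p = 0) ∧
    ∀ z ∈ S, z ∈ IntermediateField.adjoin K ({ξ, x, y} : Set Ω)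

private theorem pair_eq {Ω : Type} (ξ x : Ω) : ({ξ} ∪ Set.range ![x] : Set Ω) = {ξ, x} := by
  ext z
  constructor
  · rintro (h | ⟨i, rfl⟩)
    · exact Or.inl h
    · obtain rfl : i = 0 := Subsingleton.elim _ _
      exact Or.inr rfl
  · rintro (h | h)
    · exact Or.inl h
    · exact Or.inr ⟨0, h.symm⟩

/-- the bound for points -/
theorem ptsE (b : ℕ) (hb : 2 ≤ b) (δ₀ : ℕ) : ∃ c : ℝ, 0 < c ∧
    ∀ (K Ω : Type) [Field K] [NumberField K] [Field Ω] [CharZero Ω] [IsAlgClosed Ω] [Algebra K Ω]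
      [Algebra.IsAlgebraic K Ω] (P : ℕ) (L : IntermediateField K Ω), InRadE b P δ₀ L →
      ∀ (a : Ω) (N : ℕ), a ≠ 0 → (∀ k : ℕ, 1 ≤ k → ∀ j : ℤ, a ^ k ≠ (b : Ω) ^ j) →
      Module.finrank ℚ K * (minpoly L a).natDegree * P ≤ N →
      c ≤ (N : ℝ) * (1 + Real.log N) ^ 300 * absLogHeight₁ a := by
  classical
  obtain ⟨c, hc, h⟩ := Pool.Agent.H36.LI.thmL_dob b hb δ₀
  refine ⟨c, hc, ?_⟩
  intro K Ω _ _ _ _ _ _ _ P L hL a N' ha0 ha hN'
  have : Algebra.IsAlgebraic ℚ Ω := Algebra.IsAlgebraic.trans ℚ K Ω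
  have haQ : IsIntegral ℚ a := Algebra.IsIntegral.isIntegral a
  have haL : IsIntegral L a := (Algebra.IsIntegral.isIntegral (R := K) a).tower_top
  obtain ⟨m, n, δ, ξ, x, y, hm, hn, hcop, hξ, hx, hdeg, ⟨hδ1, hδ₀, hEx⟩, ⟨p, hp0, hpP, hpy⟩, hmem⟩ :=
    hL ((minpoly L a).coeffs.image fun z : L => (z : Ω)) (by
      intro s hs
      rw [Finset.mem_image] at hs
      obtain ⟨z, -, rfl⟩ := hs
      exact z.2)
  have hhn : 0 ≤ absLogHeight₁ a := ht_nonneg a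
  have hfin : FiniteDimensional ℚ (Pool.Agent.H11.BE.fld ξ ![x]) := by
    unfold Pool.Agent.H11.BE.fld
    have hf : Finite (({ξ} ∪ Set.range ![x] : Set Ω)) :=
      ((Set.finite_singleton ξ).union (Set.finite_range ![x])).to_subtype
    refine IntermediateField.finiteDimensional_adjoin (S := {ξ} ∪ Set.range ![x]) ?_
    intro y _
    exact Algebra.IsIntegral.isIntegral y
  set N : IntermediateField K Ω := IntermediateField.adjoin K ({ξ, x} : Set Ω) with hN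
  have hyN : IsIntegral N y := (Algebra.IsIntegral.isIntegral (R := K) y).tower_top
  have haN : IsIntegral N a := (Algebra.IsIntegral.isIntegral (R := K) a).tower_top
  have hle : ∀ s ∈ IntermediateField.adjoin K ({ξ, x, y} : Set Ω), s ∈ N⟮y⟯ := by
    intro s hs
    have h1 : IntermediateField.adjoin K ({ξ, x, y} : Set Ω) ≤ N⟮y⟯.restrictScalars K := by
      rw [IntermediateField.adjoin_le_iff]
      rintro z (hz | hz | hz)
      · exact N⟮y⟯.algebraMap_mem ⟨z, subset_adjoin K _ (Or.inl hz)⟩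
      · exact N⟮y⟯.algebraMap_mem ⟨z, subset_adjoin K _ (Or.inr hz)⟩
      · rw [Set.mem_singleton_iff] at hz
        rw [hz]
        exact mem_adjoin_simple_self N y
    exact h1 hs
  have h1 : (minpoly N⟮y⟯ a).natDegree ≤ (minpoly L a).natDegree := by
    refine Pool.Agent.H11.BE.deg_le_range L N⟮y⟯ Ω a haL fun i => ?_
    by_cases h0 : (minpoly L a).coeff i = 0
    · exact ⟨0, by rw [h0, map_zero, map_zero]⟩
    · exact ⟨⟨_, hle _ (hmem _ (Finset.mem_image_of_mem _ (Polynomial.coeff_mem_coeffs h0)))⟩, rfl⟩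
  have h2 : (minpoly N y).natDegree ≤ P :=
    (Polynomial.natDegree_le_natDegree (minpoly.degree_le_of_ne_zero N y hp0 hpy)).trans hpP
  have h3 := Pool.Agent.H11.BE.deg_mul_le N Ω y a hyN haN
  have hlev := Pool.Agent.H11.BE.deg_lev K Ω ξ ![x] hfin a
  have hNN : (minpoly (IntermediateField.adjoin K ({ξ} ∪ Set.range ![x])) a).natDegree =
      (minpoly N a).natDegree := by
    rw [hN, pair_eq]
  rw [hNN] at hlev
  have hd : Pool.Agent.H11.BE.dgr ξ ![x] a ≤ N' := by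
    refine le_trans (hlev.trans ?_) hN'
    rw [mul_assoc]
    refine Nat.mul_le_mul_left _ ?_
    rw [mul_comm (minpoly L a).natDegree]
    exact h3.trans (Nat.mul_le_mul h2 h1)
  have hQQ : Pool.Agent.H11.BE.dgr ξ ![x] a =
      (minpoly (IntermediateField.adjoin ℚ ({ξ, x} : Set Ω)) a).natDegree := by
    unfold Pool.Agent.H11.BE.dgr Pool.Agent.H11.BE.fld
    rw [pair_eq]
  rw [hQQ] at hd
  exact h Ω m n δ N' ξ x a hm hn hcop hξ hx hdeg hδ1 hδ₀ hEx haQ hd ha0 ha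

/-- the degree of `y` is at least one -/
theorem InRadE.pos {K Ω : Type} [Field K] [Field Ω] [CharZero Ω] [Algebra K Ω] {b P δ₀ : ℕ}
    {L : IntermediateField K Ω} (h : InRadE b P δ₀ L) : 1 ≤ P := by
  obtain ⟨m, n, δ, ξ, x, y, -, -, -, -, -, -, -, ⟨p, hp0, hpP, hpy⟩, -⟩ := h ∅ (by simp)
  by_contra hcon
  have h1 : p.natDegree = 0 := by omega
  rw [Polynomial.eq_C_of_natDegree_eq_zero h1, Polynomial.aeval_C] at hpy
  apply hp0
  rw [Polynomial.eq_C_of_natDegree_eq_zero h1]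
  have h2 : p.coeff 0 = 0 := (FaithfulSMul.algebraMap_injective _ Ω) (by rw [hpy, map_zero])
  rw [h2, Polynomial.C_0]

end Pool.Agent.H36.RL
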