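import Pool.Agent.H36.RL.PtE
import Pool.Agent.H11.TS.FinA

/-!
# THEOREM L version 5 and the structure theorem TS: subvarieties of tori over families of fields

`rad_BE`: for radical fields `L` (`InRadE b P δ₀ L`), groups `Γ ⊇ ⟨b⟩^n` and `Γ`-transverse `V` on which no `r + 1` independent
characters are constant: `c ≤ ([K : ℚ] P ω)^((1 + ε) max(1, r)) θ`.
-/

set_option autoImplicit false
set_option linter.unusedSectionVars false

open NumberField IntermediateField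

namespace Pool.Agent.H36.RL

open Pool.Agent.H72.PB Pool.Agent.H11.TH Pool.Agent.H33.TR Pool.Agent.H11.TS

/-- `N (1 + log N)^300 ≤ C N^(1 + ε)` -/
theorem log_absorb (ε : ℝ) (hε : 0 < ε) : ∃ C : ℝ, 1 ≤ C ∧ ∀ N : ℝ, 1 ≤ N →
    N * (1 + Real.log N) ^ 300 ≤ C * N ^ (1 + ε) := by
  obtain ⟨η, hη⟩ : ∃ η : ℝ, η = ε / 300 := ⟨_, rfl⟩
  have hη0 : 0 < η := by rw [hη]; positivity
  refine ⟨(1 + 1 / η) ^ 300, one_le_pow₀ (by have := div_nonneg zero_le_one hη0.le; linarith), ?_⟩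
  intro N hN
  have hN0 : 0 < N := by linarith
  have h1 : Real.log N ≤ N ^ η / η := Real.log_le_rpow_div hN0.le hη0
  have h2 : (1 : ℝ) ≤ N ^ η := Real.one_le_rpow hN hη0.le
  have h3 : 0 ≤ Real.log N := Real.log_nonneg hN
  have h4 : 1 + Real.log N ≤ (1 + 1 / η) * N ^ η := by
    have h5 : N ^ η / η = 1 / η * N ^ η := by ring
    rw [h5] at h1
    nlinarith
  have h6 : (1 + Real.log N) ^ 300 ≤ (1 + 1 / η) ^ 300 * N ^ ε := by
    calc (1 + Real.log N) ^ 300 ≤ ((1 + 1 / η) * N ^ η) ^ 300 :=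
          pow_le_pow_left₀ (by linarith) h4 300
      _ = (1 + 1 / η) ^ 300 * (N ^ η) ^ 300 := mul_pow _ _ _
      _ = (1 + 1 / η) ^ 300 * N ^ ε := by
          rw [← Real.rpow_natCast (N ^ η) 300, ← Real.rpow_mul hN0.le, hη]
          congr 2
          push_cast
          ring
  calc N * (1 + Real.log N) ^ 300 ≤ N * ((1 + 1 / η) ^ 300 * N ^ ε) :=
        mul_le_mul_of_nonneg_left h6 hN0.le
    _ = (1 + 1 / η) ^ 300 * (N * N ^ ε) := by ring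
    _ = (1 + 1 / η) ^ 300 * N ^ (1 + ε) := by
        rw [Real.rpow_add hN0, Real.rpow_one]

/-- the bound for points in the form needed for the transfer -/
theorem pts_dgE (b : ℕ) (hb : 2 ≤ b) (δ₀ : ℕ) (ε : ℝ) (hε : 0 < ε) : ∃ c : ℝ, 0 < c ∧ c ≤ 1 ∧
    ∀ (K Ω : Type) [Field K] [NumberField K] [Field Ω] [CharZero Ω] [IsAlgClosed Ω] [Algebra K Ω]
      [IsGalois K Ω] (P : ℕ) (L : IntermediateField K Ω), InRadE b P δ₀ L →
      ∀ a : Ω, a ≠ 0 → (∀ k : ℕ, 1 ≤ k → ∀ j : ℤ, a ^ k ≠ (b : Ω) ^ j) →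
      c / ((Module.finrank ℚ K * P : ℕ) : ℝ) ^ (1 + ε) ≤ (dg L a : ℝ) ^ (1 + ε) *
        absLogHeight₁ a := by
  obtain ⟨c, hc, h⟩ := ptsE b hb δ₀
  obtain ⟨C, hC1, hC⟩ := log_absorb ε hε
  have hC0 : 0 < C := by linarith
  refine ⟨min (c / C) 1, lt_min (by positivity) one_pos, min_le_right _ _, ?_⟩
  intro K Ω _ _ _ _ _ _ _ P L hL a ha0 ha
  have hP := hL.pos
  have hK : 1 ≤ Module.finrank ℚ K := Module.finrank_pos
  have haL : IsIntegral L a := (Algebra.IsIntegral.isIntegral (R := K) a).tower_top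
  have hd1 : 1 ≤ dg L a := (minpoly.natDegree_pos haL).trans_le (natDegree_le_dg L a)
  have hle : Module.finrank ℚ K * (minpoly L a).natDegree * P ≤
      Module.finrank ℚ K * P * dg L a := by
    have h2 := natDegree_le_dg L a
    calc Module.finrank ℚ K * (minpoly L a).natDegree * P
        ≤ Module.finrank ℚ K * dg L a * P :=
          Nat.mul_le_mul_right _ (Nat.mul_le_mul_left _ h2)
      _ = _ := by ring
  have h1 := h K Ω P L hL a (Module.finrank ℚ K * P * dg L a) ha0 ha hle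
  have hN1 : (1 : ℝ) ≤ ((Module.finrank ℚ K * P * dg L a : ℕ) : ℝ) := by
    have : 1 ≤ Module.finrank ℚ K * P * dg L a := Nat.mul_pos (Nat.mul_pos hK hP) hd1
    exact_mod_cast this
  have h2 := hC _ hN1
  have hh : 0 ≤ absLogHeight₁ a := ht_nonneg a
  have h3 : c ≤ C * ((Module.finrank ℚ K * P * dg L a : ℕ) : ℝ) ^ (1 + ε) * absLogHeight₁ a :=
    h1.trans (mul_le_mul_of_nonneg_right h2 hh)
  have hkP : (1 : ℝ) ≤ ((Module.finrank ℚ K * P : ℕ) : ℝ) := by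
    have : 1 ≤ Module.finrank ℚ K * P := Nat.mul_pos hK hP
    exact_mod_cast this
  have hpos : (0 : ℝ) < ((Module.finrank ℚ K * P : ℕ) : ℝ) ^ (1 + ε) :=
    Real.rpow_pos_of_pos (by linarith) _
  rw [div_le_iff₀ hpos]
  have h4 : ((Module.finrank ℚ K * P * dg L a : ℕ) : ℝ) ^ (1 + ε) =
      ((Module.finrank ℚ K * P : ℕ) : ℝ) ^ (1 + ε) * (dg L a : ℝ) ^ (1 + ε) := by
    rw [Nat.cast_mul, Real.mul_rpow (by linarith) (Nat.cast_nonneg _)]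
  rw [h4] at h3
  have h5 : c / C ≤ (dg L a : ℝ) ^ (1 + ε) * absLogHeight₁ a *
      ((Module.finrank ℚ K * P : ℕ) : ℝ) ^ (1 + ε) := by
    rw [div_le_iff₀ hC0]
    calc c ≤ _ := h3
      _ = _ := by ring
  exact (min_le_left _ _).trans h5

private theorem theta_nonneg {Ω : Type} [Field Ω] [CharZero Ω] {n : ℕ} (V : Set (Tor Ω n))
    (hV : (idl V).IsPrime) (θ : ℝ) (hθ : idl {x | x ∈ V ∧ ht x ≤ θ} ≤ idl V) : 0 ≤ θ := by
  obtain ⟨x, hx⟩ : {x | x ∈ V ∧ ht x ≤ θ}.Nonempty := by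
    by_contra hcon
    rw [Set.not_nonempty_iff_eq_empty] at hcon
    rw [hcon] at hθ
    apply hV.ne_top
    rw [eq_top_iff]
    refine le_trans ?_ hθ
    intro f _
    rw [mem_idl]
    intro x hx
    exact absurd hx (Set.notMem_empty x)
  refine le_trans ?_ hx.2
  unfold ht
  exact Finset.sum_nonneg fun l _ => ht_nonneg _

/-- all subvarieties -/
theorem rad_BE (n r b : ℕ) (hb : 2 ≤ b) (δ₀ : ℕ) (ε : ℝ) (hε : 0 < ε) : ∃ c : ℝ, 0 < c ∧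
    ∀ (K Ω : Type) [Field K] [NumberField K] [Field Ω] [CharZero Ω] [IsAlgClosed Ω] [Algebra K Ω]
      [IsGalois K Ω] (P : ℕ) (L : IntermediateField K Ω), InRadE b P δ₀ L →
      ∀ Γ : Subgroup (Tor Ω n), (∀ x : Tor Ω n, (∀ l, ∃ j : ℤ, (x l : Ω) = (b : Ω) ^ j) → x ∈ Γ) →
      ∀ V : Set (Tor Ω n), (idl V).IsPrime → Transv K Γ V →
      (∀ e : Fin (r + 1) → Fin n → ℤ, LinearIndependent ℚ (fun i => rv (e i)) →
        ∃ i, ∀ γ : Ωˣ, ∃ x ∈ V, ch (e i) x ≠ γ) →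
      ∀ (Z : Set (Tor Ω n)) (d' : ℕ) (δ ω : ℝ), ClosedOver L Z → Z ≠ Set.univ →
        Equidim Z d' → HasDeg Z d' δ → V ⊆ Z → δ ^ (1 / ((n : ℝ) - d')) ≤ ω →
      ∀ θ : ℝ, idl {x | x ∈ V ∧ ht x ≤ θ} ≤ idl V →
      c ≤ (((Module.finrank ℚ K * P : ℕ) : ℝ) * ω) ^ ((1 + ε) * max 1 (r : ℝ)) * θ := by
  obtain ⟨ε₁, hε₁⟩ : ∃ ε₁ : ℝ, ε₁ = min (ε / 3) 1 := ⟨_, rfl⟩
  have he0 : 0 < ε₁ := by
    rw [hε₁]
    exact lt_min (by linarith) one_pos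
  have he1 : ε₁ ≤ 1 := by
    rw [hε₁]
    exact min_le_right _ _
  have he3 : ε₁ ≤ ε / 3 := by
    rw [hε₁]
    exact min_le_left _ _
  have hsq : (1 + ε₁) * (1 + ε₁) ≤ 1 + ε := by nlinarith
  obtain ⟨c, hc, hc1, h⟩ := pts_dgE b hb δ₀ ε₁ he0
  obtain ⟨κ, hκ, hB⟩ := ts_B n r (1 + ε₁) ε₁ (by linarith) he0
  refine ⟨κ * c, by positivity, ?_⟩
  intro K Ω _ _ _ _ _ _ _ P L hL Γ hΓ V hV htr hr Z d' δ ω hZ hZne hZd hZδ hVZ hω θ hθ
  have hP := hL.pos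
  have hK : 1 ≤ Module.finrank ℚ K := Module.finrank_pos
  obtain ⟨q, hq⟩ : ∃ q : ℝ, q = ((Module.finrank ℚ K * P : ℕ) : ℝ) := ⟨_, rfl⟩
  have hq1 : 1 ≤ q := by
    rw [hq]
    have : 1 ≤ Module.finrank ℚ K * P := Nat.mul_pos hK hP
    exact_mod_cast this
  obtain ⟨hω1, h1⟩ := hB K Ω (c / q ^ (1 + ε₁)) (pw b hb) L
    (fun γ hγ => by
      rw [hq]
      exact h K Ω P L hL (γ : Ω) γ.ne_zero fun k hk j hj => hγ k hk
        ((mem_pw b hb _).2 ⟨j, (Units.val_pow_eq_pow_val γ k).trans hj⟩)) Γ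
    (fun x hx => hΓ x fun l => (mem_pw b hb _).1 (hx l)) V hV htr hr Z d' δ ω hZ hZne hZd
    hZδ hVZ hω θ hθ
  have hθ0 := theta_nonneg V hV θ hθ
  rw [← hq]
  have hqe : 1 ≤ q ^ (1 + ε₁) := Real.one_le_rpow hq1 (by linarith)
  have hmin : min 1 (c / q ^ (1 + ε₁)) = c / q ^ (1 + ε₁) :=
    min_eq_right ((div_le_one (by linarith)).2 (hc1.trans hqe))
  rw [hmin] at h1
  obtain ⟨M, hM⟩ : ∃ M : ℝ, M = max 1 (r : ℝ) := ⟨_, rfl⟩
  have hM1 : 1 ≤ M := by rw [hM]; exact le_max_left _ _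
  have hMr : (r : ℝ) ≤ M := by rw [hM]; exact le_max_right _ _
  have hexp : (1 + ε₁) * max 1 ((r : ℝ) * (1 + ε₁)) ≤ (1 + ε) * M := by
    have h2 : max 1 ((r : ℝ) * (1 + ε₁)) ≤ (1 + ε₁) * M := by
      refine max_le ?_ ?_
      · nlinarith
      · nlinarith
    calc (1 + ε₁) * max 1 ((r : ℝ) * (1 + ε₁)) ≤ (1 + ε₁) * ((1 + ε₁) * M) :=
          mul_le_mul_of_nonneg_left h2 (by linarith)
      _ = ((1 + ε₁) * (1 + ε₁)) * M := by ring
      _ ≤ (1 + ε) * M := mul_le_mul_of_nonneg_right hsq (by linarith)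
  have hexp2 : 1 + ε₁ ≤ (1 + ε) * M := by nlinarith
  have h3 : κ * (c / q ^ (1 + ε₁)) ≤ ω ^ ((1 + ε) * M) * θ :=
    h1.trans (mul_le_mul_of_nonneg_right (Real.rpow_le_rpow_of_exponent_le hω1 hexp) hθ0)
  have h4 : κ * (c / q ^ (1 + ε₁)) = κ * c / q ^ (1 + ε₁) := by ring
  rw [h4, div_le_iff₀ (by linarith)] at h3
  rw [← hM]
  have hω0 : 0 ≤ ω ^ ((1 + ε) * M) := Real.rpow_nonneg (by linarith) _
  calc κ * c ≤ ω ^ ((1 + ε) * M) * θ * q ^ (1 + ε₁) := h3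
    _ = (q ^ (1 + ε₁) * ω ^ ((1 + ε) * M)) * θ := by ring
    _ ≤ (q ^ ((1 + ε) * M) * ω ^ ((1 + ε) * M)) * θ := by
        refine mul_le_mul_of_nonneg_right ?_ hθ0
        exact mul_le_mul_of_nonneg_right (Real.rpow_le_rpow_of_exponent_le hq1 hexp2) hω0
    _ = (q * ω) ^ ((1 + ε) * M) * θ := by
        rw [Real.mul_rpow (by linarith) (by linarith)]

end Pool.Agent.H36.RL
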