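import Pool.Agent.H33.TR.RadG
import Pool.Agent.H36.RL.VarE
import Pool.Agent.H69.BD.Vidx

/-!
# A polynomial Lehmer bound for subvarieties of tori over fields of radicals and roots of unity

Let `b ≥ 2` be an integer, `ι ≥ 0`, `K` a number field. A field `K ⊂ L ⊂ K̄` is radical (with parameter `P`) if every finite subset
of `L` lies in a field `K(ξ, x, y)`, where `ξ^n = 1`, `x^m = b`, `[ℚ(x) : ℚ] = m`, `n` is prime to `m b`,
`log [𝓞_(ℚ(x)) : ℤ[x]] ≤ ι m`, and `y` has degree at most `P` over `K(ξ, x)`. There is no condition on the primes that divide `m`.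
Examples, for `b` squarefree (with `ι = 0`, `P = 1`): let `𝒫` be any set of primes, finite or infinite, with `p² ∤ b^(p-1) - 1` for all
`p ∈ 𝒫` which do not divide `b`; the infinite extension of `K` generated by compatible roots `b^(1/m)`, for all `m` composed of primes of `𝒫`,
and by all roots of unity of order prime to `b` and to all `p ∈ 𝒫`. There are `c > 0`, the same for all `K`, `P`, and `C(n)`, the same
for all `b`, `ι` as well, such that

* `h(α) ≥ c ([K : ℚ] [L(α) : L] P)^(-2000)` for all radical `L` and all `α ∈ K̄*` no power of which is a power of `b`,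
* `μ_ess(V) ≥ c ([K : ℚ] P ω_L(V))^(-C(n))` for all radical `L` (such as `L = K(Γ)`), all groups `Γ ⊂ 𝔾_m^n(K̄)`
  which contain `⟨b⟩^n` and all `Γ`-transverse subvarieties `V ≠ 𝔾_m^n` of any dimension.

The field `L` is tame (with parameters `P`, `δ₀`) if the condition on the index is replaced by `δ 𝓞_(ℚ(x)) ⊆ ℤ[x]` for some `δ ≤ δ₀` (in the
examples: `δ₀ = 1`). For tame `L` the exponents are optimal up to logarithms or `ε > 0`:

* `h(α) ≥ c N⁻¹ (1 + log N)^(-300)` with `N = [K : ℚ] [L(α) : L] P`,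
* `μ_ess(V) ≥ c ([K : ℚ] P ω_L(V))^(-(1 + ε) max(1, r))`, if no `r + 1` independent characters are constant on `V`: exponent `1 + ε` for all
  `Γ`-transverse `V`, unless at least two independent characters are constant on `V`.
-/

set_option autoImplicit false
set_option linter.unusedSectionVars false

open MvPolynomial Filter Topology IntermediateField

namespace Pool.Agent.H36.RL.ResDraft

/-- The group of points over the algebraic closure of `K` of the torus `𝔾_m^n`. -/
abbrev Torus (K : Type) [Field K] (n : ℕ) : Type := Fin n → (AlgebraicClosure K)ˣ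

section Definitions

/-- The index of the order `ℤ[x]` in the ring of integers of `ℚ(x)`. -/
noncomputable def orderIndex {Ω : Type} [Field Ω] [CharZero Ω] (x : Ω) : ℕ :=
  (Algebra.adjoin ℤ ({x} : Set Ω)).toSubring.toAddSubgroup.relIndex
    (ℚ⟮x⟯.toSubalgebra.toSubring ⊓ (integralClosure ℤ Ω).toSubring).toAddSubgroup

variable {K : Type} [Field K] [NumberField K] {n : ℕ}

/-- The coordinate vector of a point of `𝔾_m^n`. -/
def coords (x : Torus K n) : Fin n → AlgebraicClosure K := fun i => (x i : AlgebraicClosure K)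

/-- The canonical height `h_G(x) = ∑ h(x_i)`, with `h` the absolute logarithmic Weil height. -/
noncomputable def height (x : Torus K n) : ℝ := ∑ i, NumberField.absLogHeight₁ (coords x i)

/-- The ideal of all polynomials over the algebraic closure vanishing on `V`. -/
noncomputable def idealOf (V : Set (Torus K n)) :
    Ideal (MvPolynomial (Fin n) (AlgebraicClosure K)) :=
  vanishingIdeal (AlgebraicClosure K) (coords '' V)

/-- `Z` is a Zariski closed subset of `𝔾_m^n` defined over `L`. -/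
def IsClosedOver (L : IntermediateField K (AlgebraicClosure K)) (Z : Set (Torus K n)) : Prop :=
  ∃ J : Ideal (MvPolynomial (Fin n) L), Z = {x | coords x ∈ zeroLocus (AlgebraicClosure K) J}

/-- Subvarieties: irreducible closed subsets (over the algebraic closure). -/
def IsSubvariety (V : Set (Torus K n)) : Prop := IsClosedOver ⊤ V ∧ (idealOf V).IsPrime

/-- All irreducible components of `Z` have dimension `d`. -/
def IsEquidimensional (Z : Set (Torus K n)) (d : ℕ) : Prop :=
  Z.Nonempty ∧ ∀ P ∈ (idealOf Z).minimalPrimes,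
    ringKrullDim (MvPolynomial (Fin n) (AlgebraicClosure K) ⧸ P) = d

/-- The space of functions on `Z` that are restrictions of polynomials of degree at most `m`
in each variable, that is, of global sections of `O(m,...,m)` on `(ℙ^1)^n`. -/
noncomputable def sections (Z : Set (Torus K n)) (m : ℕ) :
    Submodule (AlgebraicClosure K) (Z → AlgebraicClosure K) :=
  (restrictDegree (Fin n) (AlgebraicClosure K) m).map
    (LinearMap.pi fun z : Z => (aeval (coords (z : Torus K n))).toLinearMap)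

/-- `Z`, of pure dimension `d`, has degree `δ` with respect to `O(1,...,1)` on `(ℙ^1)^n`:
its Hilbert function is asymptotic to `δ m^d / d!`. -/
def HasDegree (Z : Set (Torus K n)) (d : ℕ) (δ : ℝ) : Prop :=
  Tendsto (fun m : ℕ => (d.factorial : ℝ) *
    (Module.finrank (AlgebraicClosure K) (sections Z m) : ℝ) / (m : ℝ) ^ d) atTop (𝓝 δ)

/-- `ω = deg(Z)^(1/(n - dim Z))` for some equidimensional Zariski closed `Z ⊊ 𝔾_m^n` defined over `L` and
containing `V`. The obstruction index `ω_L(V)` is the minimum of these `ω`. -/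
def ObstructionValue (L : IntermediateField K (AlgebraicClosure K)) (V : Set (Torus K n))
    (ω : ℝ) : Prop :=
  ∃ (Z : Set (Torus K n)) (d : ℕ) (δ : ℝ), IsClosedOver L Z ∧ Z ≠ Set.univ ∧
    IsEquidimensional Z d ∧ V ⊆ Z ∧ HasDegree Z d δ ∧ ω = δ ^ (1 / ((n : ℝ) - d))

/-- The points of height at most `θ` are Zariski dense in `V`. The essential minimum `μ_ess(V)` is the
infimum of these `θ`. -/
def EssentialBound (V : Set (Torus K n)) (θ : ℝ) : Prop :=
  idealOf {x | x ∈ V ∧ height x ≤ θ} ≤ idealOf V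

/-- The saturation of `Γ`. -/
def sat (Γ : Subgroup (Torus K n)) : Set (Torus K n) := {x | ∃ m : ℕ, 1 ≤ m ∧ x ^ m ∈ Γ}

/-- `V` is `Γ`-transverse: no proper `Γ`-torsion subvariety `B γ`, with `B` a connected algebraic
subgroup and `γ` in the saturation of `Γ`, contains `V`. -/
def IsTransverse (Γ : Subgroup (Torus K n)) (V : Set (Torus K n)) : Prop :=
  ∀ (B : Subgroup (Torus K n)) (γ : Torus K n), IsSubvariety (B : Set (Torus K n)) → γ ∈ sat Γ →
    (fun b => b * γ) '' (B : Set (Torus K n)) ≠ Set.univ →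
    ¬ V ⊆ (fun b => b * γ) '' (B : Set (Torus K n))

/-- `y` has degree at most `d` over `L`. -/
def DegreeLE (L : IntermediateField K (AlgebraicClosure K)) (d : ℕ)
    (y : AlgebraicClosure K) : Prop :=
  ∃ P : Polynomial L, P ≠ 0 ∧ P.natDegree ≤ d ∧ Polynomial.aeval y P = 0

/-- Every finite subset of `L` lies in a field `K(ξ, x, y)`, `ξ ^ n = 1`, `x ^ m = b`, `[ℚ(x) : ℚ] = m`, such that `n` is prime to
`m b`, the logarithm of the index of `ℤ[x]` in the ring of integers of `ℚ(x)` is at most `ι m`, and `y` has degree at most `P` over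
`K(ξ, x)`. -/
def IsRadical (b P : ℕ) (ι : ℝ) (L : IntermediateField K (AlgebraicClosure K)) : Prop :=
  ∀ S : Finset (AlgebraicClosure K), (∀ z ∈ S, z ∈ L) → ∃ (m n : ℕ) (ξ x y : AlgebraicClosure K),
    1 ≤ m ∧ 1 ≤ n ∧ n.Coprime (m * b) ∧ ξ ^ n = 1 ∧ x ^ m = (b : AlgebraicClosure K) ∧
    Module.finrank ℚ ℚ⟮x⟯ = m ∧ Real.log (orderIndex x) ≤ ι * m ∧
    DegreeLE (IntermediateField.adjoin K {ξ, x}) P y ∧
    ∀ z ∈ S, z ∈ IntermediateField.adjoin K {ξ, x, y}

/-- Every finite subset of `L` lies in a field `K(ξ, x, y)`, `ξ ^ n = 1`, `x ^ m = b`, `[ℚ(x) : ℚ] = m`, such that `n` is prime to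
`m b`, `δ z ∈ ℤ[x]` for all integers `z` of `ℚ(x)`, for some `1 ≤ δ ≤ δ₀`, and `y` has degree at most `P` over `K(ξ, x)`. -/
def IsTame (b P δ₀ : ℕ) (L : IntermediateField K (AlgebraicClosure K)) : Prop :=
  ∀ S : Finset (AlgebraicClosure K), (∀ z ∈ S, z ∈ L) → ∃ (m n δ : ℕ) (ξ x y : AlgebraicClosure K),
    1 ≤ m ∧ 1 ≤ n ∧ n.Coprime (m * b) ∧ ξ ^ n = 1 ∧ x ^ m = (b : AlgebraicClosure K) ∧
    Module.finrank ℚ ℚ⟮x⟯ = m ∧
    (1 ≤ δ ∧ δ ≤ δ₀ ∧ ∀ z ∈ ℚ⟮x⟯, IsIntegral ℤ z →
      (δ : AlgebraicClosure K) * z ∈ Algebra.adjoin ℤ ({x} : Set (AlgebraicClosure K))) ∧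
    DegreeLE (IntermediateField.adjoin K {ξ, x}) P y ∧
    ∀ z ∈ S, z ∈ IntermediateField.adjoin K {ξ, x, y}

/-- The character `x ↦ ∏ x_l ^ (e l)` of `𝔾_m^n`. -/
noncomputable def character (e : Fin n → ℤ) (x : Torus K n) : (AlgebraicClosure K)ˣ := ∏ l, x l ^ e l

/-- The characters that are constant on `V` have rank at most `r`: of `r + 1` linearly independent characters at least one is
not constant on `V`. -/
def ConstantRankLE (V : Set (Torus K n)) (r : ℕ) : Prop :=
  ∀ e : Fin (r + 1) → Fin n → ℤ, LinearIndependent ℚ (fun i l => (e i l : ℚ)) →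
    ∃ i, ∀ γ : (AlgebraicClosure K)ˣ, ∃ x ∈ V, character (e i) x ≠ γ

/-- `Γ` contains all points whose coordinates are powers of `b`. -/
def ContainsPowers (b : ℕ) (Γ : Subgroup (Torus K n)) : Prop :=
  ∀ x : Torus K n, (∀ l, ∃ j : ℤ, coords x l = (b : AlgebraicClosure K) ^ j) → x ∈ Γ

/-- The bound for elements, for all number fields `K`. -/
def ElementBound (b : ℕ) (ι c : ℝ) : Prop :=
  ∀ (K : Type) [Field K] [NumberField K] (L : IntermediateField K (AlgebraicClosure K))
    (P d : ℕ) (α : (AlgebraicClosure K)ˣ), IsRadical b P ι L →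
    DegreeLE L d (α : AlgebraicClosure K) →
    (∀ k : ℕ, 1 ≤ k → ∀ j : ℤ, (α : AlgebraicClosure K) ^ k ≠ (b : AlgebraicClosure K) ^ j) →
    c ≤ ((Module.finrank ℚ K : ℝ) * d * P) ^ 2000 *
      NumberField.absLogHeight₁ (α : AlgebraicClosure K)

/-- The bound for subvarieties of `𝔾_m^n`, for all number fields `K`. -/
def VarietyBound (b : ℕ) (ι : ℝ) (n C : ℕ) (c : ℝ) : Prop :=
  ∀ (K : Type) [Field K] [NumberField K] (L : IntermediateField K (AlgebraicClosure K))
    (P : ℕ) (Γ : Subgroup (Torus K n)), IsRadical b P ι L → ContainsPowers b Γ →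
    ∀ V : Set (Torus K n), IsSubvariety V → IsTransverse Γ V →
    ∀ ω : ℝ, ObstructionValue L V ω → ∀ θ : ℝ, EssentialBound V θ →
    c ≤ ((Module.finrank ℚ K : ℝ) * P * ω) ^ C * θ

/-- The bound for elements over tame fields, for all number fields `K`. -/
def TameElementBound (b δ₀ : ℕ) (c : ℝ) : Prop :=
  ∀ (K : Type) [Field K] [NumberField K] (L : IntermediateField K (AlgebraicClosure K))
    (P d N : ℕ) (α : (AlgebraicClosure K)ˣ), IsTame b P δ₀ L →
    DegreeLE L d (α : AlgebraicClosure K) →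
    (∀ k : ℕ, 1 ≤ k → ∀ j : ℤ, (α : AlgebraicClosure K) ^ k ≠ (b : AlgebraicClosure K) ^ j) →
    N = Module.finrank ℚ K * d * P →
    c ≤ (N : ℝ) * (1 + Real.log N) ^ 300 * NumberField.absLogHeight₁ (α : AlgebraicClosure K)

/-- The bound for subvarieties of `𝔾_m^n` over tame fields, for all number fields `K`. -/
def TameVarietyBound (b δ₀ n r : ℕ) (ε c : ℝ) : Prop :=
  ∀ (K : Type) [Field K] [NumberField K] (L : IntermediateField K (AlgebraicClosure K))
    (P : ℕ) (Γ : Subgroup (Torus K n)), IsTame b P δ₀ L → ContainsPowers b Γ →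
    ∀ V : Set (Torus K n), IsSubvariety V → IsTransverse Γ V → ConstantRankLE V r →
    ∀ ω : ℝ, ObstructionValue L V ω → ∀ θ : ℝ, EssentialBound V θ →
    c ≤ ((Module.finrank ℚ K : ℝ) * P * ω) ^ ((1 + ε) * max 1 (r : ℝ)) * θ

end Definitions

private lemma radical_iff {K : Type} [Field K] [NumberField K] {b P : ℕ} {ι : ℝ}
    {L : IntermediateField K (AlgebraicClosure K)} :
    IsRadical b P ι L ↔ Pool.Agent.H33.TR.InRadG b P ι L := Iff.rfl

private lemma natDegree_le {K : Type} [Field K] [NumberField K]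
    (L : IntermediateField K (AlgebraicClosure K)) (d : ℕ) (y : AlgebraicClosure K)
    (h : DegreeLE L d y) : (minpoly L y).natDegree ≤ d := by
  obtain ⟨P, hP0, hPd, hP⟩ := h
  exact (Polynomial.natDegree_le_natDegree (minpoly.degree_le_of_ne_zero L y hP0 hP)).trans hPd

private theorem element (b : ℕ) (hb : 2 ≤ b) (ι : ℝ) (hι : 0 ≤ ι) :
    ∃ c : ℝ, 0 < c ∧ ElementBound b ι c := by
  obtain ⟨c, hc, h⟩ := Pool.Agent.H33.TR.ptsG b hb ι hι
  refine ⟨c, hc, ?_⟩
  intro K _ _ L P d α hL hα hnot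
  refine (h K (AlgebraicClosure K) P L (radical_iff.1 hL) (α : AlgebraicClosure K) α.ne_zero
    hnot).trans (mul_le_mul_of_nonneg_right ?_ (Pool.Agent.H72.PB.ht_nonneg _))
  refine pow_le_pow_left₀ (Nat.cast_nonneg _) ?_ _
  have h1 : Module.finrank ℚ K * (minpoly L (α : AlgebraicClosure K)).natDegree * P ≤
      Module.finrank ℚ K * d * P :=
    Nat.mul_le_mul_right _ (Nat.mul_le_mul_left _ (natDegree_le L d _ hα))
  exact_mod_cast h1

private theorem variety (b : ℕ) (hb : 2 ≤ b) (ι : ℝ) (hι : 0 ≤ ι) (n : ℕ) :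
    ∃ c : ℝ, 0 < c ∧ VarietyBound b ι n (Pool.Agent.H33.TR.expoG n) c := by
  obtain ⟨c, hc, h⟩ := Pool.Agent.H33.TR.rad_BG n b hb ι hι
  refine ⟨c, hc, ?_⟩
  intro K _ _ L P Γ hL hΓ V hV htr ω hω θ hθ
  obtain ⟨Z, d', δ, hZ, hZne, hZd, hVZ, hZδ, rfl⟩ := hω
  have h1 := h K (AlgebraicClosure K) P L (radical_iff.1 hL) Γ (fun x hx => hΓ x hx) V hV.2
    (fun B γ hB1 hB2 hγ hne hsub => htr B γ ⟨hB1, hB2⟩ hγ hne hsub)
    Z d' δ _ hZ hZne hZd hZδ hVZ le_rfl θ hθ
  have h2 : ((Module.finrank ℚ K * P : ℕ) : ℝ) = (Module.finrank ℚ K : ℝ) * P := by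
    push_cast
    ring
  rw [h2] at h1
  exact h1

private theorem tame_element (b : ℕ) (hb : 2 ≤ b) (δ₀ : ℕ) :
    ∃ c : ℝ, 0 < c ∧ TameElementBound b δ₀ c := by
  obtain ⟨c, hc, h⟩ := Pool.Agent.H36.RL.ptsE b hb δ₀
  refine ⟨c, hc, ?_⟩
  intro K _ _ L P d N α hL hα hnot hN
  refine h K (AlgebraicClosure K) P L hL (α : AlgebraicClosure K) N α.ne_zero hnot ?_
  rw [hN]
  exact Nat.mul_le_mul_right _ (Nat.mul_le_mul_left _ (natDegree_le L d _ hα))

private theorem tame_variety (b : ℕ) (hb : 2 ≤ b) (δ₀ n r : ℕ) (ε : ℝ) (hε : 0 < ε) :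
    ∃ c : ℝ, 0 < c ∧ TameVarietyBound b δ₀ n r ε c := by
  obtain ⟨c, hc, h⟩ := Pool.Agent.H36.RL.rad_BE n r b hb δ₀ ε hε
  refine ⟨c, hc, ?_⟩
  intro K _ _ L P Γ hL hΓ V hV htr hr ω hω θ hθ
  obtain ⟨Z, d', δ, hZ, hZne, hZd, hVZ, hZδ, rfl⟩ := hω
  have h1 := h K (AlgebraicClosure K) P L hL Γ (fun x hx => hΓ x hx) V hV.2
    (fun B γ hB1 hB2 hγ hne hsub => htr B γ ⟨hB1, hB2⟩ hγ hne hsub) hr
    Z d' δ _ hZ hZne hZd hZδ hVZ le_rfl θ hθ
  have h2 : ((Module.finrank ℚ K * P : ℕ) : ℝ) = (Module.finrank ℚ K : ℝ) * P := by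
    push_cast
    ring
  rw [h2] at h1
  exact h1

/-- **Lehmer bounds for subvarieties of tori over fields of radicals and roots of unity.** There are exponents `C n` such that for all
`b ≥ 2` and `ι ≥ 0` the height of the numbers outside the saturation of `⟨b⟩` over radical fields `L`, and the essential minimum of
`Γ`-transverse subvarieties of `𝔾_m^n`, `Γ ⊇ ⟨b⟩^n`, are bounded below by a power of the degree over `L` and of the obstruction index
`ω_L(V)`, with constants that depend only on `b`, `ι`, `n`. Over tame fields the exponents are `1` up to logarithms for numbers, and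
`(1 + ε) max(1, r)` for `V`, where `r` is the rank of the group of characters constant on `V`. -/
theorem result : (∃ C : ℕ → ℕ, ∀ b : ℕ, 2 ≤ b → ∀ ι : ℝ, 0 ≤ ι →
      (∃ c : ℝ, 0 < c ∧ ElementBound b ι c) ∧
        ∀ n : ℕ, ∃ c : ℝ, 0 < c ∧ VarietyBound b ι n (C n) c) ∧
    ∀ b : ℕ, 2 ≤ b → ∀ δ₀ : ℕ, (∃ c : ℝ, 0 < c ∧ TameElementBound b δ₀ c) ∧
      ∀ (n r : ℕ) (ε : ℝ), 0 < ε → ∃ c : ℝ, 0 < c ∧ TameVarietyBound b δ₀ n r ε c :=
  ⟨⟨Pool.Agent.H33.TR.expoG, fun b hb ι hι => ⟨element b hb ι hι, variety b hb ι hι⟩⟩,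
    fun b hb δ₀ => ⟨tame_element b hb δ₀, fun n r ε hε => tame_variety b hb δ₀ n r ε hε⟩⟩

end Pool.Agent.H36.RL.ResDraft
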